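import Pool.Agent.Run7.h561.FL.Dp

/-!
# All the interfaces of critical bond percolation at once, as curves, in any domain

Critical bond percolation, collections of interfaces. A collection is a nonempty compact set of
curves up to reparametrisation (metric space `CurveQ`), with the Hausdorff metric.

First part: `D` a bounded nonempty open set, free boundary condition, `C n` the collection of ALL
the interface loops (outer and inner boundaries of all the open clusters). Every subsequence has a
subsequence along which the law of `C n` converges, and for every limit law, almost surely: all the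
members are closed curves in the closure of `D`; every open subset of `D` contains non-constant
members; only finitely many members of diameter at least `η` meet a given compact subset of `D`;
and for all the members `c`, all the arcs `c[s, t]` which are not constant, all open sets `U` and
all `w`, at once: the boundary of the connected component of `w` in `U \ c[s, t]` has in every open
subset of `U ∩ D` which it meets Hausdorff dimension exactly `4 / 3`; the double points of all the
members in `D` have dimension at most `3 / 4`.

Second part: the last three properties in every open set `D` (bounded or not), for every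
discretisation and every boundary condition (Dobrushin, wired, random, …), for every collection of
different interfaces which are complete in `D`, in particular the exploration path together with
all the loops.

Third part (from which the second one follows): every property of curves which holds almost surely
for all subsequential limits of single interfaces complete in `D` holds almost surely for all the
members of the limits of collections at once, if they are not constant and meet `D`.

Definitions: `Seq` (meshes, positions of the lattices, sampled edges, configurations), `Seq.Agree`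
in `Pool.Agent.Run7.h561.CC.Stm`; `Free` in `FL.Fre`; `CurveQ`, `cls`, `Col`, `pth`, `Inj`,
`Compl`, `Disj`, `IsCol`, `lawC` in `FL.Stm`; `Loop` in `FL.Tig1`; `AllLp` in `FL.All`; `Rich`,
`LocFin` in `FL.Nd2`; `OneItf` in `FL.Trn`; `FewDbl` in `FL.Dp`; `Dbl` in
`Pool.Agent.W822.PD.StmC`; `Full`, `Itf`, `law` in `Pool.Agent.Run7.h165.GI.Defs`; states, `nxt`,
`orb` in `Pool.Agent.H984R3.Per.Defs`; `Curve` (paths up to reparametrisation) in
`Pool.Agent.H342R3.Lim.Curve`; `poly` (polygonal path) in `Pool.Agent.H342R3.Tig.Defs`.

Proof: the theorem for one interface in any domain (`Run7.h165.GI.t_GI`, helper165 and helper561)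
is applied to the member of the collection nearest to a given curve; since the expected number of
different interfaces which cross an annulus is bounded, the members which cross it are isolated in
the limit, so each of them is the unique member nearest to some curve of a countable dense set.
Compactness: Aizenman-Burchard, for all the loops simultaneously. Non-constant loops: independent
small boxes.
-/

set_option autoImplicit false

namespace Pool.Agent.Results.MP_fe58d8_pr.AllInterfacesAnyDomain

open H974 H984P H342L MeasureTheory TopologicalSpace Filter Topology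
open Run7.h561.FL
open Run7.h561.CC (Seq)
open Run7.h165.GI (Itf)
open Pool.Agent.TH990.FU (zp)

/-- For all the arcs of `c` which are not constant and all the components of the complement of the
arc in any open set `U`: the boundary of the component has dimension exactly `4 / 3` in each open
subset `V` of `U ∩ D` which it meets. -/
def Good (D : Set ℂ) (c : Curve) : Prop :=
  ∀ s t : unitInterval, (∃ u ∈ Set.Icc s t, c.path u ≠ c.path s) →
    ∀ U : Set ℂ, IsOpen U → ∀ w : ℂ, ∀ V ⊆ U ∩ D, IsOpen V →
      (frontier (connectedComponentIn (U \ c.path '' Set.Icc s t) w) ∩ V).Nonempty →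
      dimH (frontier (connectedComponentIn (U \ c.path '' Set.Icc s t) w) ∩ V) = 4 / 3

/-- For large `n`, `C n F` is the collection of all the interface loops in `D`. -/
def AllIn (s : Seq) (D : Set ℂ) (C : ℕ → Finset Edg → Col) : Prop :=
  ∀ᶠ n in atTop, ∀ F ⊆ s.E n, AllLp (s.δ n) (s.o n) D (s.G n F) (C n F)

theorem good_of {D : Set ℂ} {c : Curve} (h : Dim43 D c) : Good D c := by
  intro a b hab U hU w V hV hVo hne
  exact Run7.h165.GI.open_dim (fun z hz hzW ρ hρ => h a b hab U hU w z hzW.1 hzW.2 hz ρ hρ)
    hVo hV hne

/-- the general part -/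
theorem general {s : Seq} {D : Set ℂ} (hD : IsOpen D) (hag : s.Agree D)
    {C : ℕ → Finset Edg → Col} (hC : IsCol s D C) {φ : ℕ → ℕ} (hφ : StrictMono φ)
    {M : ProbabilityMeasure Col} (hM : Tendsto (fun i => lawC s C (φ i)) atTop (𝓝 M)) :
    ∀ᵐ 𝓛 : Col ∂(M : Measure Col), LocFin D 𝓛 ∧
      ∀ c : Curve, cls c ∈ 𝓛 → Good D c ∧ FewDbl D c := by
  have h1 := Run7.h165.CC.sub_agree hag hφ
  have h2 := sub_col hC hφ
  filter_upwards [t_FL t_CNT (Run7.h165.CC.sub s φ hφ) D hD h1 (fun i => C (φ i)) h2 M hM,
    t_locfin hD h1 h2 hM, t_dbl hD hag hC hφ hM] with 𝓛 g1 g2 g3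
  exact ⟨g2, fun c hc => ⟨good_of (g1 c hc), g3 c hc⟩⟩

/-- the free boundary condition -/
theorem free_part {s : Seq} {D : Set ℂ} (hD : IsOpen D) (hs : Free s D)
    {C : ℕ → Finset Edg → Col}
    (h : ∀ n, ∀ F ⊆ s.E n, AllLp (s.δ n) (s.o n) D (s.G n F) (C n F)) {φ : ℕ → ℕ}
    (hφ : StrictMono φ) {M : ProbabilityMeasure Col}
    (hM : Tendsto (fun i => lawC s C (φ i)) atTop (𝓝 M)) :
    ∀ᵐ 𝓛 : Col ∂(M : Measure Col),
      (∀ c : Curve, cls c ∈ 𝓛 → c.path 0 = c.path 1 ∧ Set.range c.path ⊆ closure D) ∧
      Rich D 𝓛 ∧ LocFin D 𝓛 ∧ ∀ c : Curve, cls c ∈ 𝓛 → Good D c ∧ FewDbl D c := by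
  have hs' : Free (Run7.h165.CC.sub s φ hφ) D := fun n => hs (φ n)
  have h' : ∀ n, ∀ F ⊆ (Run7.h165.CC.sub s φ hφ).E n, AllLp ((Run7.h165.CC.sub s φ hφ).δ n)
      ((Run7.h165.CC.sub s φ hφ).o n) D ((Run7.h165.CC.sub s φ hφ).G n F) (C (φ n) F) :=
    fun n F hF => h (φ n) F hF
  filter_upwards [t_closed hs' h' hM, t_rich hD hs' h' hM,
    general hD (free_agree hD hs) (all_isCol h) hφ hM] with 𝓛 g1 g2 g3
  exact ⟨g1, g2, g3.1, g3.2⟩

/-- indices -/
theorem mono_shift {φ : ℕ → ℕ} (hφ : StrictMono φ) (N : ℕ) :
    StrictMono (fun i => φ (i + N) - N) := by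
  intro i j h
  have h1 : φ (i + N) < φ (j + N) := hφ (by omega)
  have h2 : i + N ≤ φ (i + N) := hφ.id_le _
  simp only
  omega

theorem add_mono (N : ℕ) : StrictMono (fun i : ℕ => i + N) := fun i j h => by
  simp only
  omega

/-- `(1)` Free boundary condition, all the interface loops, in every bounded open set `D`:
percolation in `D` and the collection of all the loops exist for all meshes and positions of the
lattice; every subsequence has a subsequence along which the law of the collection converges; for
every subsequential limit, almost surely, the members are closed curves in the closure of `D`,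
every open subset of `D` contains non-constant members, the members of diameter at least `η` which
meet a compact subset of `D` are finitely many, and all members are `Good` and `FewDbl`. `(2)` For
every open set `D`, for every model which is critical percolation on the compact subsets of `D` (the
rest of the configuration is arbitrary, and may depend on the percolation), for every collection of
different interfaces which are complete in `D`: `LocFin`, and `Good` and `FewDbl` for all the
members at once. `(3)` In the same generality, every property `P` of curves which holds almost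
surely for all subsequential limits of single interfaces holds almost surely for all the members of
the limits of collections at once, if they are not constant and meet `D`. -/
theorem result :
    (∀ D : Set ℂ, IsOpen D → Bornology.IsBounded D → D.Nonempty →
      (∀ (δ : ℕ → ℝ) (o : ℕ → ℂ), (∀ n, 0 < δ n) → Tendsto δ atTop (𝓝 0) →
        ∃ s : Seq, s.δ = δ ∧ s.o = o ∧ Free s D) ∧
      ∀ s : Seq, Free s D → (∃ C, AllIn s D C) ∧ ∀ C, AllIn s D C →
        (∀ ψ : ℕ → ℕ, StrictMono ψ → ∃ (φ : ℕ → ℕ) (M : ProbabilityMeasure Col),
          StrictMono φ ∧ Tendsto (fun i => lawC s C (ψ (φ i))) atTop (𝓝 M)) ∧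
        ∀ φ : ℕ → ℕ, StrictMono φ → ∀ M : ProbabilityMeasure Col,
          Tendsto (fun i => lawC s C (φ i)) atTop (𝓝 M) → ∀ᵐ 𝓛 : Col ∂(M : Measure Col),
            (∀ c : Curve, cls c ∈ 𝓛 → c.path 0 = c.path 1 ∧ Set.range c.path ⊆ closure D) ∧
            Rich D 𝓛 ∧ LocFin D 𝓛 ∧ ∀ c : Curve, cls c ∈ 𝓛 → Good D c ∧ FewDbl D c) ∧
    ∀ (s : Seq) (D : Set ℂ), IsOpen D → s.Agree D → ∀ C : ℕ → Finset Edg → Col, IsCol s D C →
      ∀ φ : ℕ → ℕ, StrictMono φ → ∀ M : ProbabilityMeasure Col,
        Tendsto (fun i => lawC s C (φ i)) atTop (𝓝 M) →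
        (∀ᵐ 𝓛 : Col ∂(M : Measure Col), LocFin D 𝓛 ∧
          ∀ c : Curve, cls c ∈ 𝓛 → Good D c ∧ FewDbl D c) ∧
        ∀ P : Curve → Prop, OneItf s D P → ∀ᵐ 𝓛 : Col ∂(M : Measure Col), ∀ c : Curve,
          cls c ∈ 𝓛 → (∃ t, c.path t ∈ D) → (∃ t t', c.path t ≠ c.path t') → P c := by
  classical
  refine ⟨fun D hD hb hne => ⟨?_, fun s hs => ⟨?_, fun C hC => ⟨fun ψ hψ => ?_,
    fun φ hφ M hM => ?_⟩⟩⟩, fun s D hD hag C hC φ hφ M hM =>
    ⟨general hD hag hC hφ hM, fun P hP => transfer hD hag hP hC hφ hM⟩⟩
  · intro δ o hδ hlim
    have hfin : ∀ n, {e : Edg |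
        segment ℝ (zp (δ n) (o n) (src e)) (zp (δ n) (o n) (tgt e)) ⊆ D}.Finite := by
      intro n
      have h1 := vert_finite (hδ n) (o n) hb
      refine Set.Finite.subset (((h1.image Prod.fst).prod ((h1.image Prod.snd).prod
        (Set.toFinite (Set.univ : Set Bool))))) ?_
      rintro ⟨x, y, b⟩ he
      have h2 : zp (δ n) (o n) (x, y) ∈ D := he (left_mem_segment ℝ _ _)
      exact ⟨⟨(x, y), h2, rfl⟩, ⟨(x, y), h2, rfl⟩, trivial⟩
    exact ⟨⟨δ, o, fun n => (hfin n).toFinset, fun n F => (↑F : Set Edg), hδ, hlim⟩, rfl, rfl,
      fun n => ⟨fun e => (hfin n).mem_toFinset, fun F => rfl⟩⟩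
  · obtain ⟨x, hx⟩ := hne
    obtain ⟨η, hη, hth⟩ := Metric.isOpen_iff.1 hD x hx
    have key : ∀ n F, ∃ L : Col, s.δ n < η / 2 → F ⊆ s.E n →
        AllLp (s.δ n) (s.o n) D (s.G n F) L := by
      intro n F
      by_cases hn : s.δ n < η / 2 ∧ F ⊆ s.E n
      · obtain ⟨v0, hv0⟩ := vert_near (s.pos n) (s.o n) x
        obtain ⟨L, hL⟩ := all_exists (s.pos n) hb ⟨v0, hth (by
          rw [Metric.mem_ball]; linarith [hn.1])⟩ (free_ends hs hn.2)
        exact ⟨L, fun _ _ => by rw [(hs n).2 F]; exact hL⟩
      · exact ⟨⟨⟨{cls ⟨ContinuousMap.const _ 0⟩}, isCompact_singleton⟩, ⟨_, rfl⟩⟩,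
          fun h1 h2 => absurd ⟨h1, h2⟩ hn⟩
    choose C hC using key
    refine ⟨C, ?_⟩
    filter_upwards [s.lim.eventually (gt_mem_nhds (half_pos hη))] with n hn F hF
    exact hC n F hn hF
  · obtain ⟨N, hN⟩ := eventually_atTop.1 hC
    obtain ⟨φ, M, hφ, hlim⟩ := all_compact (s := Run7.h165.CC.sub s _ (add_mono N)) hb
      (fun n => hs (n + N)) (C := fun i => C (i + N))
      (fun n F hF => hN (n + N) (by omega) F hF) (mono_shift hψ N)
    refine ⟨fun i => φ i + N, M, fun i j hij => by have := hφ hij; simp only; omega, ?_⟩
    refine hlim.congr fun i => ?_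
    have h2 : φ i + N ≤ ψ (φ i + N) := hψ.id_le _
    show lawC s C (ψ (φ i + N) - N + N) = lawC s C (ψ (φ i + N))
    rw [Nat.sub_add_cancel (by omega)]
  · obtain ⟨N, hN⟩ := eventually_atTop.1 hC
    refine free_part (s := Run7.h165.CC.sub s _ (add_mono N)) hD (fun n => hs (n + N))
      (C := fun i => C (i + N)) (fun n F hF => hN (n + N) (by omega) F hF)
      (mono_shift hφ N) (M := M) ?_
    have h3 := hM.comp (tendsto_add_atTop_nat N)
    refine h3.congr fun i => ?_
    have h2 : i + N ≤ φ (i + N) := hφ.id_le _
    show lawC s C (φ (i + N)) = lawC s C (φ (i + N) - N + N)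
    rw [Nat.sub_add_cancel (by omega)]

end Pool.Agent.Results.MP_fe58d8_pr.AllInterfacesAnyDomain
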