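import Pool.Agent.Run7.h561.EC.P_ALL
import Pool.Agent.Run7.h165.EC.Allt2
import Pool.Agent.Run7.h165.EC.Dom2
import Pool.Agent.Results.MP_fe58d8_pr.BoundaryTimes

/-!
# Every complementary component of every piece of the limits of the exploration path

Critical bond percolation on `δ ℤ²` in a rectangle `D = (-A, B) × (0, H)`, with the counterclockwise
boundary arc from `a = t + i H` to `b = 0` wired and the other one dual-wired. The exploration path
is parametrised by its number of steps: `Rect.curve` is the piecewise linear curve on `[0, 1]` run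
at constant speed, and `Rect.time` is the number of steps times `δ ^ (7/4)`; `Rect.law` is the law
of (curve, time). Weak limits exist along a subsequence of every sequence of meshes.

For every weak limit, almost surely, for all times `s < t` simultaneously:
* the boundary of EVERY connected component of `ℂ \ γ[s, t]` has Hausdorff dimension exactly `4/3`,
  and the set of the times in `[s, t]` at which `γ` is on it has dimension exactly `16/21`;
* the same for every component of `D \ γ[s, t]` (the part of its boundary in `D`), for example the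
  domain which remains at time `t`;
* the same locally, for the components `C` of `U \ γ[s, t]` for every open set `U`: for every
  boundary point `z` of `C` in `U ∩ D` and every radius `ρ` the part of the boundary of `C` in
  `U ∩ D ∩ B(z, ρ)` has dimension exactly `4/3`, and its set of times dimension `16/21`.

(The starting file `FrontierDimension` has the dimension of the union of the boundaries of all the
components of the complement of the whole trace.)

Definitions: `Pool.Agent.H984R4.NP.Model` (`Rect`, `pos`, `clamp`, `pl`, `X`, `Rect.D`, `Rect.dm`,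
`Rect.curve`, `Rect.time`, `Rect.law`), `Pool.Agent.H984R4.NP.Defs` (`Dm`, `Dm.edges`, `Dm.wir`,
`Dm.cfg`, `Dm.walk`, `Dm.len`) and `Pool.Agent.H984R3.Per.Defs` (states, `ae`, `mv`, `rt`, `nxt`,
`orb`).

Proof (project EC, helper561 and helper165): the first time at which a ray from a point `w` of the
component meets the cluster of the path, the cluster makes a tip; locally (in a box which the
path leaves, without regard to the rest of the configuration), near a tip there are boundary
vertices of the cluster which are accessible from `w` and form a set with the energy bounds of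
dimension `4/3`, with thickness which is polynomial in the distance and so passes to the limit; the
same in the dual configuration; a deterministic argument sends every component of `U \ γ[s, t]` near
each of its boundary points to such a ray; all pieces follow from the full trace since the double
points have dimension `3/4`.
-/

set_option autoImplicit false

namespace Pool.Agent.Results.MP_fe58d8_pr.EveryComponent

open H984N MeasureTheory Filter Topology
open Run7.h165.EC
open scoped ENNReal

/-- The boundary of the component of `w` in `U` minus the piece `γ[s, t]`. -/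
def bd (U : Set ℂ) (γ : C(unitInterval, ℂ)) (s t : unitInterval) (w : ℂ) : Set ℂ :=
  frontier (connectedComponentIn (U \ γ '' Set.Icc s t) w)

/-- The dimension is `4/3` in space and `16/21` in time. -/
def Dims (γ : C(unitInterval, ℂ)) (s t : unitInterval) (S : Set ℂ) : Prop :=
  dimH S = 4 / 3 ∧ dimH {u : unitInterval | u ∈ Set.Icc s t ∧ γ u ∈ S} = 16 / 21

theorem result (R : Rect) :
    (∀ δ : ℕ → ℝ, (∀ i, 0 < δ i) → Tendsto δ atTop (𝓝 0) →
      ∃ φ : ℕ → ℕ, StrictMono φ ∧ ∃ μ : ProbabilityMeasure X,
        Tendsto (fun i => R.law (δ (φ i))) atTop (𝓝 μ)) ∧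
    (∀ δ : ℕ → ℝ, (∀ i, 0 < δ i) → Tendsto δ atTop (𝓝 0) → ∀ μ : ProbabilityMeasure X,
      Tendsto (fun i => R.law (δ i)) atTop (𝓝 μ) →
      ∀ᵐ p ∂(μ : Measure X), ∀ s t : unitInterval, s < t →
        (∀ w : ℂ, w ∉ p.1 '' Set.Icc s t → Dims p.1 s t (bd Set.univ p.1 s t w)) ∧
        (∀ w ∈ R.D \ p.1 '' Set.Icc s t, Dims p.1 s t (bd R.D p.1 s t w ∩ R.D)) ∧
        ∀ U : Set ℂ, IsOpen U → ∀ w : ℂ, ∀ z ∈ bd U p.1 s t w, z ∈ U → z ∈ R.D →
          ∀ ρ : ℝ, 0 < ρ →
            Dims p.1 s t (bd U p.1 s t w ∩ (U ∩ R.D ∩ Metric.ball z ρ))) := by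
  obtain ⟨h1, h2⟩ := UniformDimension.result R
  refine ⟨h1, fun δ hδ hlim μ hμ => ?_⟩
  filter_upwards [fin_rect Run7.h561.EC.a_HIT t_AXI R hδ hlim hμ, h2 δ hδ hlim μ hμ,
    (NaturalCurve.result R).2.2.2 δ hδ hlim μ hμ, (BoundaryTimes.result R).2 δ hδ hlim μ hμ]
    with p hp hu hn hb
  obtain ⟨-, -, -, hcl, hdim, -⟩ := hn
  intro s t hst
  have hKc : p.1 '' Set.Icc s t ⊆ closure R.D := by
    rintro _ ⟨u, -, rfl⟩
    exact hcl u
  have hKD := meets R hKc (hdim s t hst)
  have hD := Pool.Agent.TH990.FU.D_open R
  have hKcl := (piece_compact p.1 s t).isClosed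
  have hx : ∃ x ∈ frontier R.D, x ∉ p.1 '' Set.Icc s t := by
    by_contra hcon
    push Not at hcon
    have e1 : frontier R.D ⊆ p.1 '' {u : unitInterval | p.1 u ∈ frontier R.D} := by
      intro x hx
      obtain ⟨u, -, hu2⟩ := hcon x hx
      exact ⟨u, by rw [Set.mem_ofPred_eq, hu2]; exact hx, hu2⟩
    have e2 := (rect_bd_one R).trans (dimH_mono e1)
    rw [hu, hb.1] at e2
    have a1 : (7 / 4 : ℝ≥0∞) = ENNReal.ofReal (7 / 4) := by
      rw [ENNReal.ofReal_div_of_pos (by norm_num)]; norm_num
    have a2 : (8 / 21 : ℝ≥0∞) = ENNReal.ofReal (8 / 21) := by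
      rw [ENNReal.ofReal_div_of_pos (by norm_num)]; norm_num
    rw [a1, a2, ← ENNReal.ofReal_mul (by norm_num), ← ENNReal.ofReal_one,
      ENNReal.ofReal_le_ofReal_iff (by norm_num)] at e2
    norm_num at e2
  refine ⟨fun w hw => ?_, fun w hw => ?_, fun U hU w z hz hzU hzD ρ hρ => ?_⟩
  · have e1 : bd Set.univ p.1 s t w =
        frontier (connectedComponentIn (p.1 '' Set.Icc s t)ᶜ w) := by
      unfold bd
      rw [← Set.compl_eq_univ_sdiff]
    have e2 := whole hst hp (rect_conn R) (rect_out_conn R) (rect_front R) hKc hKD hx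
      (rect_bd_dim R) hw
    have e3 : bd Set.univ p.1 s t w ⊆ p.1 '' Set.Icc s t := by
      have e4 := front_sub isOpen_univ hKcl w
      rwa [Set.inter_univ] at e4
    rw [← e1] at e2
    exact ⟨e2, times_on hu e3 e2⟩
  · have e2 := wholeD hD hst hp (rect_conn R) hKD hw
    exact ⟨e2, times_on hu (front_sub hD hKcl w) e2⟩
  · have e2 := hp s t hst U hU w z hzU hzD hz ρ hρ
    refine ⟨e2, times_on hu ?_ e2⟩
    rintro y ⟨hy1, ⟨hy2, -⟩, -⟩
    exact front_sub hU hKcl w ⟨hy1, hy2⟩

end Pool.Agent.Results.MP_fe58d8_pr.EveryComponent
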