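import Pool.Agent.Run7.h885.BF.Asm

/-!
# Which fixed sets are hit by the exploration path, and intersections of independent paths

Critical bond percolation on `δ ℤ²` in a rectangle `D = (-A, B) × (0, H)`, with the counterclockwise
boundary arc from `a = t + i H` to `b = 0` wired and the other one dual-wired; `Rect.law` is the law
of the exploration path from `a` to `b` (as a curve on `[0, 1]` run at constant speed, together with
its number of steps times `δ ^ (7/4)`). Weak limits exist along a subsequence of every sequence of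
meshes (first statement). Let `G` be either `D`, with `m = 4` and `n = 2`, or the open boundary
segment `(0, B)` of the real axis, which is on the dual-wired arc next to `b`, with `m = 3` and
`n = 1`. For all weak limits:

* (capacity) on every compact subset `Q` of `G` the probability that the curve hits a compact set
  `S ⊆ Q` is at least a constant times the capacity of `S` for the kernel `|z - w| ^ (-1/m)`, and
  for every `S ⊆ Q` it is at most a constant times the Hausdorff content of exponent `1/m` of `S`;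
  the constants depend on `Q` only;
* (one path) for every countable union `S ⊆ G` of compact sets, the essential supremum of the
  Hausdorff dimension of the part of the curve in `S` is exactly `dim S - 1/m`, and that of the set
  of times at which the curve is in `S` is exactly `(4/7) (dim S - 1/m)` (truncated at `0`);
* (several paths) for `k` independent paths, whose laws are arbitrary weak limits, the essential
  supremum of the dimension of the set of common points in `S` is `dim S - k/m`; there is no common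
  point almost surely if `dim S < k/m`, and there are some with positive probability if
  `dim S > k/m`; in particular, in `G`, the essential supremum is `n - k/m`, there are none if
  `k > n m` and some with positive probability if `k < n m` (in `D`: none for nine or more paths,
  some for seven; in `(0, B)`: none for four or more, some for two).

Definitions: `Pool.Agent.Run7.h885.BF.Defs` (`Gam`), `Pool.Agent.Run7.h885.FS.Defs` (`energy`,
`content`, `IsLim`), `Pool.Agent.H984R4.NP.Model` (`Rect`, `pos`, `clamp`, `pl`, `X`, `Rect.D`,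
`Rect.dm`, `Rect.curve`, `Rect.time`, `Rect.law`), `Pool.Agent.H984R4.NP.Defs` (`Dm`, `Dm.edges`,
`Dm.wir`, `Dm.cfg`, `Dm.walk`, `Dm.len`) and `Pool.Agent.H984R3.Per.Defs` (states, `ae`, `mv`,
`rt`, `nxt`, `orb`).
-/

namespace Pool.Agent.Results.MP_fe58d8_pr.HittingFixedSets

open H984N MeasureTheory Filter Topology Pool.Agent.Run7.h885
open Pool.Agent.Run7.h885.FS (energy content IsLim)
open Pool.Agent.Run7.h885.BF (Gam isSigmaCompact_Gam dimH_Gam)
open scoped ENNReal

theorem result (R : Rect) :
    (∀ δ : ℕ → ℝ, (∀ i, 0 < δ i) → Tendsto δ atTop (𝓝 0) →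
      ∃ φ : ℕ → ℕ, StrictMono φ ∧ ∃ μ : ProbabilityMeasure X,
        Tendsto (fun i => R.law (δ (φ i))) atTop (𝓝 μ)) ∧
    (∀ (G : Set ℂ) (m n : ℕ), (G = R.D ∧ m = 4 ∧ n = 2) ∨ (G = Gam R.B ∧ m = 3 ∧ n = 1) →
      (∀ Q : Set ℂ, IsCompact Q → Q ⊆ G → ∃ c C : ℝ, 0 < c ∧ 0 < C ∧
        ∀ μ : ProbabilityMeasure X, IsLim R μ → ∀ S ⊆ Q,
          (IsCompact S → ∀ ν : Measure ℂ, IsFiniteMeasure ν → ν Sᶜ = 0 →
            ENNReal.ofReal c * ν S ^ 2 / energy (1 / m) ν ≤
              (μ : Measure X) {p | ∃ s, p.1 s ∈ S}) ∧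
          (μ : Measure X) {p | ∃ s, p.1 s ∈ S} ≤ ENNReal.ofReal C * content (1 / m) S) ∧
      (∀ μ : ProbabilityMeasure X, IsLim R μ → ∀ S ⊆ G, IsSigmaCompact S →
        essSup (fun p : X => dimH (S ∩ Set.range p.1)) (μ : Measure X) = dimH S - 1 / m ∧
        essSup (fun p : X => dimH {s : unitInterval | p.1 s ∈ S}) (μ : Measure X) =
          4 / 7 * (dimH S - 1 / m)) ∧
      (∀ (k : ℕ) (μ : Fin k → ProbabilityMeasure X), (∀ i, IsLim R (μ i)) →
        (∀ S ⊆ G, IsSigmaCompact S →
          essSup (fun p : Fin k → X => dimH (S ∩ ⋂ i, Set.range (p i).1))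
            (Measure.pi fun i => (μ i : Measure X)) = dimH S - k / m ∧
          (dimH S < k / m → ∀ᵐ p ∂(Measure.pi fun i => (μ i : Measure X)),
            S ∩ ⋂ i, Set.range (p i).1 = ∅) ∧
          (k / m < dimH S → 0 < (Measure.pi fun i => (μ i : Measure X))
            {p | (S ∩ ⋂ i, Set.range (p i).1).Nonempty})) ∧
        essSup (fun p : Fin k → X => dimH (G ∩ ⋂ i, Set.range (p i).1))
            (Measure.pi fun i => (μ i : Measure X)) = n - k / m ∧
        (n * m < k → ∀ᵐ p ∂(Measure.pi fun i => (μ i : Measure X)),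
            G ∩ ⋂ i, Set.range (p i).1 = ∅) ∧
        (k < n * m → 0 < (Measure.pi fun i => (μ i : Measure X))
            {p | (G ∩ ⋂ i, Set.range (p i).1).Nonempty}))) := by
  have em : ∀ m k : ℕ, 0 < m → (k : ℝ≥0∞) / m = ENNReal.ofReal ((k : ℝ) / m) := by
    intro m k hm
    rw [ENNReal.ofReal_div_of_pos (by exact_mod_cast hm), ENNReal.ofReal_natCast,
      ENNReal.ofReal_natCast]
  have en : ∀ n : ℕ, (n : ℝ≥0∞) = ENNReal.ofReal n := fun n => (ENNReal.ofReal_natCast n).symm
  have lt1 : ∀ m n k : ℕ, 0 < m → n * m < k → (n : ℝ≥0∞) < k / m := by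
    intro m n k hm h
    have hm' : (0 : ℝ) < m := by exact_mod_cast hm
    rw [em m k hm, en n, ENNReal.ofReal_lt_ofReal_iff_of_nonneg (by positivity), lt_div_iff₀ hm']
    exact_mod_cast h
  have lt2 : ∀ m n k : ℕ, 0 < m → k < n * m → (k : ℝ≥0∞) / m < n := by
    intro m n k hm h
    have hm' : (0 : ℝ) < m := by exact_mod_cast hm
    rw [em m k hm, en n, ENNReal.ofReal_lt_ofReal_iff_of_nonneg (by positivity), div_lt_iff₀ hm']
    exact_mod_cast h
  refine ⟨(UniformDimension.result R).1, ?_⟩
  rintro G m n (⟨rfl, rfl, rfl⟩ | ⟨rfl, rfl, rfl⟩)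
  · have l1 := lt1 4 2
    have l2 := lt2 4 2
    simp only [Nat.cast_ofNat] at l1 l2 ⊢
    refine ⟨fun Q hQ hQD => FS.cap_curve R hQ hQD, fun μ hμ S hSD hS => FS.one_curve R hμ hS hSD,
      fun k μ hμ => ⟨fun S hSD hS => FS.many_curves R hμ hS hSD, ?_⟩⟩
    obtain ⟨h1, h2, h3⟩ := FS.many_curves R hμ (FS.isSigmaCompact_D R) subset_rfl
    rw [FS.dimH_D R] at h1 h2 h3
    exact ⟨h1, fun hk => h2 (l1 k (by norm_num) hk), fun hk => h3 (l2 k (by norm_num) hk)⟩
  · have l1 := lt1 3 1
    have l2 := lt2 3 1
    simp only [Nat.cast_ofNat, Nat.cast_one] at l1 l2 ⊢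
    refine ⟨fun Q hQ hQD => BF.cap_curve R hQ hQD, fun μ hμ S hSD hS => BF.one_curve R hμ hS hSD,
      fun k μ hμ => ⟨fun S hSD hS => BF.many_curves R hμ hS hSD, ?_⟩⟩
    obtain ⟨h1, h2, h3⟩ := BF.many_curves R hμ (isSigmaCompact_Gam R.B) subset_rfl
    rw [dimH_Gam R.hB] at h1 h2 h3
    exact ⟨h1, fun hk => h2 (l1 k (by norm_num) hk), fun hk => h3 (l2 k (by norm_num) hk)⟩

end Pool.Agent.Results.MP_fe58d8_pr.HittingFixedSets
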