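import Mathlib
import Pool.Agent.Run7.h663.PA.LeftMain

/-!
Critical bond percolation on `ε ℤ²` (`p = 1/2`) in a Jordan domain with `C^(1,α)` boundary and with
Dobrushin boundary conditions: the probability that the exploration path leaves an interior vertex
`x` on the side of the wired arc is, up to multiplicative constants which depend only on the domain,
`ω ^ (1/3)`, where `ω` is the harmonic measure of the wired arc seen from `x`.
-/

set_option autoImplicit false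

namespace Pool.Agent.Results.MP_fe58d8_pr.LeftPassage

open MeasureTheory

/-- The square lattice: two points of `ℤ²` are adjacent when they differ by one in exactly one
coordinate. -/
def Z2 : SimpleGraph (ℤ × ℤ) where
  Adj u v := |u.1 - v.1| + |u.2 - v.2| = 1
  symm := ⟨fun u v h => by rw [abs_sub_comm v.1, abs_sub_comm v.2]; exact h⟩
  loopless := ⟨fun u h => by simp at h⟩

/-- Critical bond percolation: every edge of the square lattice is open (`true`) with
probability `1/2`, independently of the other edges. -/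
noncomputable def crit : Measure (Z2.edgeSet → Bool) :=
  Measure.infinitePi (fun _ => ProbabilityTheory.bernoulliMeasure true false
    ⟨1/2, by norm_num, by norm_num⟩)

/-- The position of the vertex `v` of the lattice `ε ℤ²` in the plane. -/
noncomputable def pos (ε : ℝ) (v : ℤ × ℤ) : ℂ := ⟨ε * v.1, ε * v.2⟩

/-- The graph of the open edges of `ε ℤ²` with both endpoints in `D`. -/
def openGraph (ε : ℝ) (D : Set ℂ) (ω : Z2.edgeSet → Bool) : SimpleGraph (ℤ × ℤ) :=
  SimpleGraph.fromEdgeSet {e | (∃ h : e ∈ Z2.edgeSet, ω ⟨e, h⟩ = true) ∧ ∀ v ∈ e, pos ε v ∈ D}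

/-- The lattice approximation of the boundary arc `A` of `D`: the vertices of `ε ℤ²` in `D` at
distance at most `2 ε` from `A`. -/
def near (ε : ℝ) (D A : Set ℂ) : Set (ℤ × ℤ) :=
  {v | pos ε v ∈ D ∧ ∃ z ∈ A, dist (pos ε v) z ≤ 2 * ε}

/-- The vertex `v` belongs to the open cluster of the wired arc `A`: an open path in `D` joins it to
a vertex near `A`. -/
def wired (ε : ℝ) (D A : Set ℂ) (ω : Z2.edgeSet → Bool) (v : ℤ × ℤ) : Prop :=
  ∃ u ∈ near ε D A, (openGraph ε D ω).Reachable u v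

/-- The vertex `v` is a corner of the face `g`. The face `g = (i, j)` is the unit square with the
corners `(i, j)`, `(i + 1, j)`, `(i, j + 1)`, `(i + 1, j + 1)`. -/
def corner (v g : ℤ × ℤ) : Prop := (v.1 = g.1 ∨ v.1 = g.1 + 1) ∧ (v.2 = g.2 ∨ v.2 = g.2 + 1)

/-- The graph of the dual paths which do not cross the cluster of the wired arc `A`: two adjacent
faces, both with a corner in `D`, are joined unless their common side is an open edge of that
cluster. -/
def dualGraph (ε : ℝ) (D A : Set ℂ) (ω : Z2.edgeSet → Bool) : SimpleGraph (ℤ × ℤ) where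
  Adj g g' := Z2.Adj g g' ∧ (∃ v, corner v g ∧ pos ε v ∈ D) ∧ (∃ v, corner v g' ∧ pos ε v ∈ D) ∧
    ∀ u v, corner u g → corner u g' → corner v g → corner v g' → wired ε D A ω u →
      ¬ (openGraph ε D ω).Adj u v
  symm := ⟨fun _ _ h => ⟨h.1.symm, h.2.2.1, h.2.1, fun u v h1 h2 h3 h4 => h.2.2.2 u v h2 h1 h4 h3⟩⟩
  loopless := ⟨fun _ h => h.1.ne rfl⟩

/-- The vertex `x` is on the side of the free arc `B`: it is not in the cluster of the wired arc
`A`, and a dual path which does not cross this cluster joins a face at `x` to a face at a vertex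
near `B`. -/
def freeSide (ε : ℝ) (D A B : Set ℂ) (ω : Z2.edgeSet → Bool) (x : ℤ × ℤ) : Prop :=
  ¬ wired ε D A ω x ∧ ∃ g g' y, corner x g ∧ y ∈ near ε D B ∧ corner y g' ∧
    (dualGraph ε D A ω).Reachable g g'

/-- The left-passage probability: the probability that the exploration path, which separates the
open cluster of the wired arc `A` from the free arc `B`, leaves the vertex `x` on the side of
`A`. -/
noncomputable def leftProb (ε : ℝ) (D A B : Set ℂ) (x : ℤ × ℤ) : ℝ :=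
  crit.real {ω | ¬ freeSide ε D A B ω x}

/-- The closed unit disc. -/
def disc : Set ℂ := Metric.closedBall 0 1

/-- `f` parametrizes a Jordan domain with `C^(1,α)` boundary, `0 < α ≤ 1`: it is injective and
continuous on the closed unit disc, conformal in the open unit disc, and its derivative extends to a
Hölder continuous function `g` without zeros on the closed unit disc. -/
def Smooth (f : ℂ → ℂ) : Prop :=
  Set.InjOn f disc ∧ ContinuousOn f disc ∧ ∃ (g : ℂ → ℂ) (M α : ℝ), 0 < α ∧ α ≤ 1 ∧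
    (∀ z, ‖z‖ < 1 → HasDerivAt f (g z) z) ∧ (∀ z ∈ disc, g z ≠ 0) ∧
    ∀ z ∈ disc, ∀ w ∈ disc, ‖g z - g w‖ ≤ M * ‖z - w‖ ^ α

/-- The point of the unit circle of argument `θ`. -/
noncomputable def cir (θ : ℝ) : ℂ := Complex.exp (θ * Complex.I)

/-- The boundary arc of the domain `f '' disc` from `f (cir a)` to `f (cir b)`. -/
def arc (f : ℂ → ℂ) (a b : ℝ) : Set ℂ := (fun θ => f (cir θ)) '' Set.Icc a b

/-- The conformal radius of the domain `f '' disc` seen from `f z`. -/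
noncomputable def confRad (f : ℂ → ℂ) (z : ℂ) : ℝ := ‖deriv f z‖ * (1 - ‖z‖ ^ 2)

/-- The harmonic measure of the boundary arc `arc f a b` of the domain `f '' disc` seen from `f z`,
that is, the harmonic measure of the arc `cir '' [a, b]` of the unit circle seen from `z`
(Poisson's formula). -/
noncomputable def harm (z : ℂ) (a b : ℝ) : ℝ :=
  (∫ t in a..b, (1 - ‖z‖ ^ 2) / ‖cir t - z‖ ^ 2) / (2 * Real.pi)

open Y989.SD in
theorem openGraph_adj {f : ℂ → ℂ} {ε : ℝ} (h : ∀ v, v ∈ TD f ε ↔ Y989.SD.pos ε v ∈ f '' Y989.SD.disc)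
    (ω : Z2.edgeSet → Bool) (u v : ℤ × ℤ) :
    (openGraph ε (f '' disc) ω).Adj u v ↔
      H974.Adj (H974.FF (H973.ES (TD f ε)) ω : Set H974.Edg) u v := by
  have hs : ∀ w, pos ε w ∈ f '' disc ↔ w ∈ TD f ε := fun w => (h w).symm
  unfold openGraph
  rw [SimpleGraph.fromEdgeSet_adj]
  constructor
  · rintro ⟨⟨⟨h, hω⟩, hV⟩, hne⟩
    have hadj : (H974.openGraph ω).Adj u v := by
      unfold H974.openGraph
      rw [SimpleGraph.fromEdgeSet_adj]
      exact ⟨⟨h, hω⟩, hne⟩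
    obtain ⟨e, he, hcase⟩ := (H974.openGraph_adj ω u v).mp hadj
    have hu : u ∈ TD f ε := (hs u).mp (hV u (Sym2.mem_mk_left u v))
    have hv : v ∈ TD f ε := (hs v).mp (hV v (Sym2.mem_mk_right u v))
    refine ⟨e, ?_, hcase⟩
    rw [Finset.mem_coe, H974.mem_FF, H973.mem_ES]
    refine ⟨?_, he⟩
    rcases hcase with ⟨h1, h2⟩ | ⟨h1, h2⟩
    · rw [h1, h2]; exact ⟨hu, hv⟩
    · rw [h1, h2]; exact ⟨hv, hu⟩
  · rintro ⟨e, he, hcase⟩
    rw [Finset.mem_coe, H974.mem_FF, H973.mem_ES] at he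
    have hadj : (H974.openGraph ω).Adj u v := (H974.openGraph_adj ω u v).mpr ⟨e, he.2, hcase⟩
    unfold H974.openGraph at hadj
    rw [SimpleGraph.fromEdgeSet_adj] at hadj
    refine ⟨⟨hadj.1, ?_⟩, hadj.2⟩
    intro w hw
    rw [hs]
    rcases Sym2.mem_iff.mp hw with rfl | rfl
    · rcases hcase with ⟨h1, h2⟩ | ⟨h1, h2⟩
      · rw [← h1]; exact he.1.1
      · rw [← h2]; exact he.1.2
    · rcases hcase with ⟨h1, h2⟩ | ⟨h1, h2⟩
      · rw [← h2]; exact he.1.2
      · rw [← h1]; exact he.1.1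

theorem near_eq {f : ℂ → ℂ} {ε : ℝ}
    (h : ∀ v, v ∈ Y989.SD.TD f ε ↔ Y989.SD.pos ε v ∈ f '' Y989.SD.disc) (a b : ℝ) :
    near ε (f '' disc) (arc f a b) = Y989.SD.near f ε a b := by
  ext v
  constructor
  · rintro ⟨h1, z, ⟨θ, ⟨h2, h3⟩, rfl⟩, h4⟩
    exact ⟨(h v).mpr h1, θ, h2, h3, by rw [dist_eq_norm] at h4; exact h4⟩
  · rintro ⟨h1, θ, h2, h3, h4⟩
    exact ⟨(h v).mp h1, f (cir θ), ⟨θ, ⟨h2, h3⟩, rfl⟩, by rw [dist_eq_norm]; exact h4⟩

theorem cor_iff (y g : ℤ × ℤ) : corner y g ↔ Run7.h663.PA.cor y g := by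
  unfold corner Run7.h663.PA.cor
  omega

theorem reach_iff {f : ℂ → ℂ} {ε : ℝ}
    (h : ∀ v, v ∈ Y989.SD.TD f ε ↔ Y989.SD.pos ε v ∈ f '' Y989.SD.disc)
    (ω : Z2.edgeSet → Bool) (u v : ℤ × ℤ) : (openGraph ε (f '' disc) ω).Reachable u v ↔
      H974.Reach (H974.FF (H973.ES (Y989.SD.TD f ε)) ω : Set H974.Edg) u v := by
  rw [SimpleGraph.reachable_iff_reflTransGen]
  have : (openGraph ε (f '' disc) ω).Adj =
      H974.Adj (H974.FF (H973.ES (Y989.SD.TD f ε)) ω : Set H974.Edg) := by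
    funext u v
    exact propext (openGraph_adj h ω u v)
  rw [this]
  rfl

theorem wired_iff {f : ℂ → ℂ} {ε : ℝ}
    (h : ∀ v, v ∈ Y989.SD.TD f ε ↔ Y989.SD.pos ε v ∈ f '' Y989.SD.disc) (a b : ℝ)
    (ω : Z2.edgeSet → Bool) (v : ℤ × ℤ) : wired ε (f '' disc) (arc f a b) ω v ↔
      Run7.h663.PA.Wd (Y989.SD.near f ε a b) (H974.FF (H973.ES (Y989.SD.TD f ε)) ω) v := by
  unfold wired Run7.h663.PA.Wd
  rw [near_eq h]
  constructor
  · rintro ⟨u, hu, hr⟩
    exact ⟨u, hu, (reach_iff h ω u v).mp hr⟩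
  · rintro ⟨u, hu, hr⟩
    exact ⟨u, hu, (reach_iff h ω u v).mpr hr⟩

theorem touch_iff {f : ℂ → ℂ} {ε : ℝ}
    (h : ∀ v, v ∈ Y989.SD.TD f ε ↔ Y989.SD.pos ε v ∈ f '' Y989.SD.disc) (g : ℤ × ℤ) :
    (∃ v, corner v g ∧ pos ε v ∈ f '' disc) ↔ Run7.h663.PA.fT (Y989.SD.TD f ε) g := by
  unfold Run7.h663.PA.fT
  constructor
  · rintro ⟨v, h1, h2⟩
    exact ⟨v, (h v).mpr h2, (cor_iff v g).mp h1⟩
  · rintro ⟨v, h1, h2⟩
    exact ⟨v, (cor_iff v g).mpr h2, (h v).mp h1⟩

/-- the corners common to the two faces on the sides of an edge -/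
theorem common {e : H974.Edg} {u : ℤ × ℤ} : (corner u (H974.dsrc e) ∧ corner u (H974.dtgt e)) ↔
    (u = H974.src e ∨ u = H974.tgt e) := by
  obtain ⟨a, b, _ | _⟩ := e
  · simp only [corner, H974.dsrc_false, H974.dtgt_mk, H974.src_mk, H974.tgt_false, Prod.ext_iff]
    omega
  · simp only [corner, H974.dsrc_true, H974.dtgt_mk, H974.src_mk, H974.tgt_true, Prod.ext_iff]
    omega

theorem edge_eq {e e' : H974.Edg} (h : (H974.src e' = H974.src e ∧ H974.tgt e' = H974.tgt e) ∨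
    (H974.src e' = H974.tgt e ∧ H974.tgt e' = H974.src e)) : e' = e := by
  obtain ⟨a, b, _ | _⟩ := e <;> obtain ⟨a', b', _ | _⟩ := e' <;>
    simp only [H974.src_mk, H974.tgt_false, H974.tgt_true, Prod.ext_iff] at h ⊢ <;> simp <;> omega

theorem dual_adj {f : ℂ → ℂ} {ε : ℝ}
    (h : ∀ v, v ∈ Y989.SD.TD f ε ↔ Y989.SD.pos ε v ∈ f '' Y989.SD.disc) (a b : ℝ)
    (ω : Z2.edgeSet → Bool) (g g' : ℤ × ℤ) :
    (dualGraph ε (f '' disc) (arc f a b) ω).Adj g g' ↔
      H974.DAdj (Run7.h663.PA.HH (Y989.SD.TD f ε) (Y989.SD.near f ε a b)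
        (H974.FF (H973.ES (Y989.SD.TD f ε)) ω)) g g' := by
  -- the edge between two adjacent faces
  have key : ∀ e : H974.Edg, ∀ g g', H974.dsrc e = g → H974.dtgt e = g' →
      ((∀ u v, corner u g → corner u g' → corner v g → corner v g' →
        wired ε (f '' disc) (arc f a b) ω u → ¬ (openGraph ε (f '' disc) ω).Adj u v) ↔
      e ∉ Run7.h663.PA.WE (Y989.SD.near f ε a b) (H974.FF (H973.ES (Y989.SD.TD f ε)) ω)) := by
    rintro e g g' rfl rfl
    constructor
    · rintro h1 ⟨h2, h3⟩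
      have c1 := (common (e := e) (u := H974.src e)).mpr (Or.inl rfl)
      have c2 := (common (e := e) (u := H974.tgt e)).mpr (Or.inr rfl)
      refine h1 (H974.src e) (H974.tgt e) c1.1 c1.2 c2.1 c2.2 ((wired_iff h a b ω _).mpr h3) ?_
      rw [openGraph_adj h]
      exact ⟨e, by exact_mod_cast h2, Or.inl ⟨rfl, rfl⟩⟩
    · intro h1 u v hu1 hu2 hv1 hv2 hw hadj
      have hu := common.mp ⟨hu1, hu2⟩
      have hv := common.mp ⟨hv1, hv2⟩
      have hne : u ≠ v := hadj.ne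
      rw [openGraph_adj h] at hadj
      obtain ⟨e', he', hc⟩ := hadj
      rw [Finset.mem_coe] at he'
      rw [wired_iff h] at hw
      have hw' : Run7.h663.PA.Wd (Y989.SD.near f ε a b) (H974.FF (H973.ES (Y989.SD.TD f ε)) ω) v :=
        hw.step (H974.Adj.reach ⟨e', by exact_mod_cast he', hc⟩)
      have e1 : e' = e := by
        apply edge_eq
        rcases hc with ⟨h3, h4⟩ | ⟨h3, h4⟩ <;> rw [h3, h4] <;> rcases hu with hu | hu <;>
          rcases hv with hv | hv <;> rw [hu, hv] at hne ⊢ <;> simp_all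
      subst e1
      apply h1
      refine ⟨he', ?_⟩
      rcases hc with ⟨h3, h4⟩ | ⟨h3, h4⟩
      · rw [h3]; exact hw
      · rw [h3]; exact hw'
  constructor
  · rintro ⟨h1, h2, h3, h4⟩
    rw [touch_iff h] at h2 h3
    have h5 : ∃ e : H974.Edg, (H974.dsrc e = g ∧ H974.dtgt e = g') ∨
        (H974.dsrc e = g' ∧ H974.dtgt e = g) := by
      obtain ⟨p, q⟩ := g
      obtain ⟨p', q'⟩ := g'
      have h6 : |p - p'| + |q - q'| = 1 := h1
      have h7 : (p' = p + 1 ∧ q' = q) ∨ (p = p' + 1 ∧ q' = q) ∨ (p' = p ∧ q' = q + 1) ∨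
          (p' = p ∧ q = q' + 1) := by
        rcases abs_cases (p - p') with ⟨k1, k2⟩ | ⟨k1, k2⟩ <;>
          rcases abs_cases (q - q') with ⟨k3, k4⟩ | ⟨k3, k4⟩ <;> omega
      rcases h7 with ⟨k1, k2⟩ | ⟨k1, k2⟩ | ⟨k1, k2⟩ | ⟨k1, k2⟩
      · exact ⟨(p', q', false), Or.inl ⟨by simp [k1, k2], by simp⟩⟩
      · exact ⟨(p, q, false), Or.inr ⟨by simp [k1, k2], by simp⟩⟩
      · exact ⟨(p', q', true), Or.inl ⟨by simp [k1, k2], by simp⟩⟩
      · exact ⟨(p, q, true), Or.inr ⟨by simp [k1, k2], by simp⟩⟩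
    obtain ⟨e, h6 | h6⟩ := h5
    · refine ⟨e, ⟨(key e g g' h6.1 h6.2).mp h4, ?_, ?_⟩, Or.inl h6⟩
      · rw [h6.1]; exact h2
      · rw [h6.2]; exact h3
    · refine ⟨e, ⟨(key e g' g h6.1 h6.2).mp
        (fun u v k1 k2 k3 k4 => h4 u v k2 k1 k4 k3), ?_, ?_⟩, Or.inr h6⟩
      · rw [h6.1]; exact h3
      · rw [h6.2]; exact h2
  · rintro ⟨e, ⟨h1, h2, h3⟩, h4⟩
    have hadj : Z2.Adj (H974.dsrc e) (H974.dtgt e) := by
      obtain ⟨p, q, _ | _⟩ := e
      · show |_| + |_| = (1 : ℤ)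
        simp
      · show |_| + |_| = (1 : ℤ)
        simp
    rcases h4 with ⟨h5, h6⟩ | ⟨h5, h6⟩
    · have k := (key e g g' h5 h6).mpr h1
      rw [h5] at h2 hadj
      rw [h6] at h3 hadj
      exact ⟨hadj, (touch_iff h g).mpr h2, (touch_iff h g').mpr h3, k⟩
    · have k := (key e g' g h5 h6).mpr h1
      rw [h5] at h2 hadj
      rw [h6] at h3 hadj
      exact ⟨hadj.symm, (touch_iff h g).mpr h3, (touch_iff h g').mpr h2,
        fun u v k1 k2 k3 k4 => k u v k2 k1 k4 k3⟩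

theorem freeSide_iff {f : ℂ → ℂ} {ε : ℝ}
    (h : ∀ v, v ∈ Y989.SD.TD f ε ↔ Y989.SD.pos ε v ∈ f '' Y989.SD.disc) (a b a' b' : ℝ)
    (ω : Z2.edgeSet → Bool) (x : ℤ × ℤ) :
    freeSide ε (f '' disc) (arc f a b) (arc f a' b') ω x ↔
      Run7.h663.PA.Rt (Y989.SD.TD f ε) (Y989.SD.near f ε a b) (Y989.SD.near f ε a' b') x
        (H974.FF (H973.ES (Y989.SD.TD f ε)) ω) := by
  unfold freeSide Run7.h663.PA.Rt
  rw [wired_iff h, near_eq h]
  have key : ∀ g g', (dualGraph ε (f '' disc) (arc f a b) ω).Reachable g g' ↔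
      H974.DReach (Run7.h663.PA.HH (Y989.SD.TD f ε) (Y989.SD.near f ε a b)
        (H974.FF (H973.ES (Y989.SD.TD f ε)) ω)) g g' := by
    intro g g'
    rw [SimpleGraph.reachable_iff_reflTransGen]
    have : (dualGraph ε (f '' disc) (arc f a b) ω).Adj =
        H974.DAdj (Run7.h663.PA.HH (Y989.SD.TD f ε) (Y989.SD.near f ε a b)
        (H974.FF (H973.ES (Y989.SD.TD f ε)) ω)) := by
      funext u v
      exact propext (dual_adj h a b ω u v)
    rw [this]
    rfl
  refine and_congr Iff.rfl ?_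
  constructor
  · rintro ⟨g, g', y, h1, h2, h3, h4⟩
    exact ⟨g, g', y, (cor_iff _ _).mp h1, h2, (cor_iff _ _).mp h3, (key g g').mp h4⟩
  · rintro ⟨g, g', y, h1, h2, h3, h4⟩
    exact ⟨g, g', y, (cor_iff _ _).mpr h1, h2, (cor_iff _ _).mpr h3, (key g g').mpr h4⟩

theorem leftProb_eq {f : ℂ → ℂ} {ε : ℝ}
    (h : ∀ v, v ∈ Y989.SD.TD f ε ↔ Y989.SD.pos ε v ∈ f '' Y989.SD.disc) (a b a' b' : ℝ)
    (x : ℤ × ℤ) : leftProb ε (f '' disc) (arc f a b) (arc f a' b') x =
      H974.Pr Y989.SD.hf (H973.ES (Y989.SD.TD f ε)) (fun F => ¬ Run7.h663.PA.Rt (Y989.SD.TD f ε)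
        (Y989.SD.near f ε a b) (Y989.SD.near f ε a' b') x F) := by
  have e : leftProb ε (f '' disc) (arc f a b) (arc f a' b') x = (H974.bondLaw H974.hlf).real
      {ω | ¬ freeSide ε (f '' disc) (arc f a b) (arc f a' b') ω x} := rfl
  rw [e]
  have e2 : {ω : Z2.edgeSet → Bool | ¬ freeSide ε (f '' disc) (arc f a b) (arc f a' b') ω x} =
      {ω | (fun F : Finset H974.Edg => ¬ Run7.h663.PA.Rt (Y989.SD.TD f ε)
        (Y989.SD.near f ε a b) (Y989.SD.near f ε a' b') x F)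
        (H974.FF (H973.ES (Y989.SD.TD f ε)) ω)} := by
    ext ω
    exact not_congr (freeSide_iff h a b a' b' ω x)
  have h6 := H974.law_event H974.hlf (H973.ES (Y989.SD.TD f ε))
    (fun F : Finset H974.Edg => ¬ Run7.h663.PA.Rt (Y989.SD.TD f ε)
        (Y989.SD.near f ε a b) (Y989.SD.near f ε a' b') x F)
  exact (congrArg (fun s => (H974.bondLaw H974.hlf).real s) e2).trans h6

/-- **Left-passage probabilities of the exploration path, in `C^(1,α)` Jordan domains.** Let `f` be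
a parametrization of a Jordan domain `D = f '' disc` with `C^(1,α)` boundary. There are constants
`c, C, K > 0` such that for every mesh `ε`, every vertex `x = f z` of `ε ℤ²` in the interior of `D`
at which the conformal radius of `D` is at least `K ε`, and all `a < b` with `ε ≤ b - a` and
`b ≤ a + 2 π`, the probability that the exploration path of critical bond percolation, from one
endpoint of the boundary arc `A = f (cir [a, b])` to the other one, wired on `A` and free on the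
complementary arc `B`, leaves `x` on the side of `A` is between `c ω ^ (1/3)` and `C ω ^ (1/3)`,
where `ω` is the harmonic measure of `A` seen from `x`. -/
theorem result (f : ℂ → ℂ) (hf : Smooth f) : ∃ c C K : ℝ, 0 < c ∧ 0 < C ∧ 0 < K ∧
    ∀ (ε : ℝ) (x : ℤ × ℤ) (z : ℂ) (a b : ℝ), 0 < ε → ‖z‖ < 1 → f z = pos ε x →
      K * ε ≤ confRad f z → ε ≤ b - a → b ≤ a + 2 * Real.pi →
      c * harm z a b ^ (1 / 3 : ℝ) ≤
        leftProb ε (f '' disc) (arc f a b) (arc f b (a + 2 * Real.pi)) x ∧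
      leftProb ε (f '' disc) (arc f a b) (arc f b (a + 2 * Real.pi)) x ≤
        C * harm z a b ^ (1 / 3 : ℝ) := by
  obtain ⟨hi, hc, g, M, α, ha0, ha1, hd, hn, hg⟩ := hf
  have hW : Y989.SD.SmW f g M α := Y989.SD.smW_of ha0 ha1 hi hc hd hn hg
  obtain ⟨c, C, K, hc0, hC0, hK0, h⟩ := Run7.h663.PA.main_left hW
  refine ⟨c, C, K, hc0, hC0, hK0, ?_⟩
  intro ε x z a b hε hz hfz hK hab hb
  have hrad : confRad f z = ‖g z‖ * (1 - ‖z‖ ^ 2) := by
    unfold confRad
    rw [(hd z hz).deriv]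
  rw [hrad] at hK
  obtain ⟨h1, h2, h3⟩ := h ε x z a b hε hz hfz hK hab hb
  rw [leftProb_eq h1]
  exact ⟨h2, h3⟩

end Pool.Agent.Results.MP_fe58d8_pr.LeftPassage
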